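import Mathlib
import Pool.Agent.Q82.CW.Stm

/-!
# `S_SUP`: bounds in the supremum norm
-/

set_option autoImplicit false

open MeasureTheory Filter Topology Set
open scoped ContDiff

namespace Pool.Agent.Q82.CW

theorem sup_ii {f : ℝ → ℝ} (h : MemLp f 2) (x y : ℝ) : IntervalIntegrable f volume x y := by
  have h1 : LocallyIntegrable f volume := h.locallyIntegrable (by norm_num)
  exact intervalIntegrable_iff.mpr
    ((h1.integrableOn_isCompact isCompact_uIcc).mono_set uIoc_subset_uIcc)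

theorem sup_ii_sq {f : ℝ → ℝ} (h : MemLp f 2) (x y : ℝ) :
    IntervalIntegrable (fun s => f s ^ 2) volume x y :=
  h.integrable_sq.intervalIntegrable

theorem sup_part {f : ℝ → ℝ} (h : MemLp f 2) {x y : ℝ} (hxy : x ≤ y) :
    ∫ s in x..y, f s ^ 2 ≤ ∫ s, f s ^ 2 := by
  rw [intervalIntegral.integral_of_le hxy]
  exact setIntegral_le_integral h.integrable_sq (ae_of_all _ fun s => sq_nonneg _)

theorem sup_cs {f : ℝ → ℝ} (h : MemLp f 2) {x y : ℝ} (hxy : x ≤ y) (h1 : y - x ≤ 1) :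
    (∫ s in x..y, f s) ^ 2 ≤ ∫ s, f s ^ 2 := by
  set I : ℝ := ∫ s in x..y, f s with hI
  have hf := sup_ii h x y
  have hf2 := sup_ii_sq h x y
  have h0 : 0 ≤ ∫ s in x..y, (f s - I) ^ 2 :=
    intervalIntegral.integral_nonneg hxy (fun _ _ => sq_nonneg _)
  have e : ∫ s in x..y, (f s - I) ^ 2 =
      (∫ s in x..y, f s ^ 2) - 2 * I * I + (y - x) * I ^ 2 := by
    have e1 : (fun s => (f s - I) ^ 2) = fun s => (f s ^ 2 - 2 * I * f s) + I ^ 2 := by
      funext s; ring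
    rw [e1, intervalIntegral.integral_add (hf2.sub (hf.const_mul _)) intervalIntegrable_const,
      intervalIntegral.integral_sub hf2 (hf.const_mul _), intervalIntegral.integral_const_mul,
      intervalIntegral.integral_const, ← hI, smul_eq_mul]
  have h2 := sup_part h hxy
  rw [e] at h0
  nlinarith [mul_nonneg (sub_nonneg.2 h1) (sq_nonneg I)]

/-- The bound in the supremum norm. -/
theorem sup_bound {f f' : ℝ → ℝ} (hc : Continuous f) (h : MemLp f 2) (h' : MemLp f' 2)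
    (ftc : ∀ x y : ℝ, f y - f x = ∫ s in x..y, f' s) (x : ℝ) :
    f x ^ 2 ≤ 2 * ((∫ s, f s ^ 2) + ∫ s, f' s ^ 2) := by
  obtain ⟨y, hy, hmin⟩ := (isCompact_Icc (a := x) (b := x + 1)).exists_isMinOn
    (nonempty_Icc.2 (by linarith)) ((hc.pow 2).continuousOn)
  have h1 : f y ^ 2 ≤ ∫ s, f s ^ 2 := by
    have h2 : ∫ s in x..(x + 1), f y ^ 2 ≤ ∫ s in x..(x + 1), f s ^ 2 := by
      apply intervalIntegral.integral_mono_on (by linarith) intervalIntegrable_const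
        (sup_ii_sq h _ _)
      intro s hs
      exact hmin hs
    have h3 := sup_part h (show x ≤ x + 1 by linarith)
    rw [intervalIntegral.integral_const] at h2
    simp only [add_sub_cancel_left, one_smul] at h2
    linarith
  have h4 : (f y - f x) ^ 2 ≤ ∫ s, f' s ^ 2 := by
    rw [ftc x y]
    exact sup_cs h' hy.1 (by linarith [hy.2])
  nlinarith [sq_nonneg (f y - f x + f y), sq_nonneg (f x - 2 * f y)]

theorem sup_loc {f : ℝ → ℝ → ℝ} (hm : ∀ τ, 0 ≤ τ → MemLp (f τ) 2)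
    (ht : ∀ τ0, 0 ≤ τ0 → Tendsto (fun τ => ∫ x, (f τ x - f τ0 x) ^ 2) (𝓝[Ici 0] τ0) (𝓝 0))
    (t : ℝ) : ∃ M : ℝ, ∀ τ ∈ Icc 0 t, (∫ x, f τ x ^ 2) ≤ M := by
  have key : ∀ s : Set ℝ, s ⊆ Icc 0 t → IsCompact s → ∃ M : ℝ, ∀ τ ∈ s, (∫ x, f τ x ^ 2) ≤ M := by
    intro s hs hcs
    refine hcs.induction_on (p := fun s => ∃ M : ℝ, ∀ τ ∈ s, (∫ x, f τ x ^ 2) ≤ M) ?_ ?_ ?_ ?_
    · exact ⟨0, fun τ h => absurd h (notMem_empty _)⟩
    · rintro s s' hss ⟨M, hM⟩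
      exact ⟨M, fun τ h => hM τ (hss h)⟩
    · rintro s s' ⟨M, hM⟩ ⟨M', hM'⟩
      refine ⟨max M M', fun τ h => ?_⟩
      rcases h with h | h
      · exact (hM τ h).trans (le_max_left _ _)
      · exact (hM' τ h).trans (le_max_right _ _)
    · intro τ0 hτ0
      have h0 : 0 ≤ τ0 := (hs hτ0).1
      have hev : ∀ᶠ τ in 𝓝[Ici 0] τ0, ∫ x, (f τ x - f τ0 x) ^ 2 < 1 :=
        (ht τ0 h0).eventually_lt_const (by norm_num)
      have hev2 : ∀ᶠ τ in 𝓝[s] τ0, ∫ x, (f τ x - f τ0 x) ^ 2 < 1 :=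
        hev.filter_mono (nhdsWithin_mono _ (fun τ h => (hs h).1))
      refine ⟨{τ | (∫ x, (f τ x - f τ0 x) ^ 2 < 1) ∧ τ ∈ s}, ?_, 2 + 2 * ∫ x, f τ0 x ^ 2, ?_⟩
      · filter_upwards [hev2, self_mem_nhdsWithin] with τ h1 h2
        exact ⟨h1, h2⟩
      · rintro τ ⟨h1, h2⟩
        have hτ : 0 ≤ τ := (hs h2).1
        have hd : MemLp (fun x => f τ x - f τ0 x) 2 := (hm τ hτ).sub (hm τ0 h0)
        have h3 : ∫ x, f τ x ^ 2 ≤ ∫ x, (2 * (f τ x - f τ0 x) ^ 2 + 2 * f τ0 x ^ 2) := by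
          apply integral_mono (hm τ hτ).integrable_sq
            ((hd.integrable_sq.const_mul 2).add ((hm τ0 h0).integrable_sq.const_mul 2))
          intro x
          show f τ x ^ 2 ≤ 2 * (f τ x - f τ0 x) ^ 2 + 2 * f τ0 x ^ 2
          nlinarith [sq_nonneg (f τ x - 2 * f τ0 x)]
        rw [integral_add (hd.integrable_sq.const_mul 2) ((hm τ0 h0).integrable_sq.const_mul 2),
          integral_const_mul, integral_const_mul] at h3
        linarith
  exact key _ le_rfl isCompact_Icc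

theorem sup_zero {w0 b0 : ℝ → ℝ} {δ : ℝ} (hm : MemLp b0 2)
    (ftc : ∀ x y : ℝ, w0 y - w0 x = ∫ s in x..y, b0 s)
    (hw : ∀ x ∈ Icc (4 : ℝ) 6, w0 x = -δ) : ∀ᵐ x : ℝ, x ∈ Ioo (4 : ℝ) 6 → b0 x = 0 := by
  have h1 : LocallyIntegrable b0 volume := hm.locallyIntegrable (by norm_num)
  filter_upwards [LocallyIntegrable.ae_hasDerivAt_integral h1] with x hx hx4
  have h2 := hx 5
  have h3 : (fun y => ∫ s in (5 : ℝ)..y, b0 s) =ᶠ[𝓝 x] fun _ => (0 : ℝ) := by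
    filter_upwards [isOpen_Ioo.mem_nhds hx4] with y hy
    rw [← ftc, hw y (Ioo_subset_Icc_self hy), hw 5 ⟨by norm_num, by norm_num⟩, sub_self]
  have h4 : HasDerivAt (fun y => ∫ s in (5 : ℝ)..y, b0 s) 0 x :=
    (hasDerivAt_const x (0 : ℝ)).congr_of_eventuallyEq h3
  exact h2.unique h4

theorem sup1 : S_SUP := by
  intro w b c S
  refine ⟨?_, ?_⟩
  · intro t ht
    obtain ⟨M1, h1⟩ := sup_loc S.mw S.tw t
    obtain ⟨M2, h2⟩ := sup_loc S.mb S.tb t
    obtain ⟨M3, h3⟩ := sup_loc S.mc S.tc t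
    have n1 : 0 ≤ M1 := le_trans (integral_nonneg fun x => sq_nonneg _) (h1 0 ⟨le_rfl, ht⟩)
    have n2 : 0 ≤ M2 := le_trans (integral_nonneg fun x => sq_nonneg _) (h2 0 ⟨le_rfl, ht⟩)
    have n3 : 0 ≤ M3 := le_trans (integral_nonneg fun x => sq_nonneg _) (h3 0 ⟨le_rfl, ht⟩)
    refine ⟨1 + 2 * (M1 + M2) + M3, fun τ hτ => ⟨fun x => ?_, ?_, ?_, ?_⟩⟩
    · have h4 := sup_bound (S.cw τ hτ.1) (S.mw τ hτ.1) (S.mb τ hτ.1) (S.ftc τ hτ.1) x
      have h5 := h1 τ hτ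
      have h6 := h2 τ hτ
      apply abs_le_of_sq_le_sq _ (by positivity)
      nlinarith
    · linarith [h1 τ hτ]
    · linarith [h2 τ hτ]
    · linarith [h3 τ hτ]
  · intro δ κ hI η hη
    have hη2 : 0 < η ^ 2 / 4 := by positivity
    have e1 := (S.tw 0 le_rfl).eventually_lt_const hη2
    have e2 := (S.tb 0 le_rfl).eventually_lt_const hη2
    obtain ⟨ε, hε, hball⟩ := Metric.mem_nhdsWithin_iff.1 (e1.and e2)
    refine ⟨ε / 2, by positivity, fun τ hτ => ?_⟩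
    have hmem : τ ∈ Metric.ball (0 : ℝ) ε ∩ Ici 0 := by
      refine ⟨?_, hτ.1⟩
      rw [Metric.mem_ball, Real.dist_eq, sub_zero, abs_of_nonneg hτ.1]
      linarith [hτ.2]
    obtain ⟨d1, d2⟩ := hball hmem
    have m1 : MemLp (fun x => w τ x - w 0 x) 2 := (S.mw τ hτ.1).sub (S.mw 0 le_rfl)
    have m2 : MemLp (fun x => b τ x - b 0 x) 2 := (S.mb τ hτ.1).sub (S.mb 0 le_rfl)
    refine ⟨fun x => ?_, ?_⟩
    · have h4 := sup_bound ((S.cw τ hτ.1).sub (S.cw 0 le_rfl)) m1 m2 (fun x y => by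
        rw [intervalIntegral.integral_sub (sup_ii (S.mb τ hτ.1) _ _) (sup_ii (S.mb 0 le_rfl) _ _),
          ← S.ftc τ hτ.1, ← S.ftc 0 le_rfl]
        simp only [Pi.sub_apply]
        ring) x
      apply abs_le_of_sq_le_sq _ hη.le
      simp only [Pi.sub_apply] at h4
      have d1' : ∫ x, (w τ x - w 0 x) ^ 2 < η ^ 2 / 4 := d1
      have d2' : ∫ x, (b τ x - b 0 x) ^ 2 < η ^ 2 / 4 := d2
      linarith
    · have hz := sup_zero (S.mb 0 le_rfl) (S.ftc 0 le_rfl) hI.2.2.1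
      have h5 : ∫ x in (4 : ℝ)..6, b τ x ^ 2 = ∫ x in (4 : ℝ)..6, (b τ x - b 0 x) ^ 2 := by
        apply intervalIntegral.integral_congr_ae
        have h6 : ∀ᵐ x : ℝ, x ≠ 6 := by
          have : ({(6 : ℝ)}ᶜ : Set ℝ) ∈ ae volume := compl_mem_ae_iff.2 (by simp)
          exact this
        filter_upwards [hz, h6] with x hx h6 hx4
        rw [uIoc_of_le (by norm_num)] at hx4
        rw [hx ⟨hx4.1, lt_of_le_of_ne hx4.2 h6⟩, sub_zero]
      rw [h5]
      have h7 := sup_part m2 (show (4 : ℝ) ≤ 6 by norm_num)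
      have d2' : ∫ x, (b τ x - b 0 x) ^ 2 < η ^ 2 / 4 := d2
      nlinarith [sq_nonneg η]

end Pool.Agent.Q82.CW
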