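import Mathlib
import Pool.Agent.Q127.DJ.Stm

/-!
# Job DJ-AVG of project DJ (helper127): the averages
-/

set_option autoImplicit false

namespace Pool.Agent.Q103.DJ_AVG

open Pool.Agent.Q127.DJ Filter Topology

theorem avg : S_avg := by
  intro A B α β j hA hB hAl hBl hα hβ
  set γ : ℕ → ℝ := fun k => α k * β (k + j) with hγ
  have hβ' : Summable (fun k => β (k + j) ^ 2) :=
    (summable_nat_add_iff (f := fun k => β k ^ 2) j).2 hβ
  have hγs : Summable γ := by
    refine Summable.of_norm_bounded (g := fun k => (α k ^ 2 + β (k + j) ^ 2)) (hα.add hβ')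
      fun k => ?_
    rw [Real.norm_eq_abs]
    show |α k * β (k + j)| ≤ _
    rw [abs_mul]
    nlinarith [sq_nonneg (|α k| - |β (k + j)|), sq_abs (α k), sq_abs (β (k + j)),
      abs_nonneg (α k), abs_nonneg (β (k + j)), sq_nonneg (α k), sq_nonneg (β (k + j))]
  have hσ : Tendsto (fun i => ∑ k ∈ Finset.range (i + 1), γ k) atTop (𝓝 (∑' k, γ k)) :=
    (hγs.hasSum.tendsto_sum_nat).comp (tendsto_add_atTop_nat 1)
  have hces : Tendsto (fun N : ℕ => (N : ℝ)⁻¹ *
      ∑ i ∈ Finset.range N, ∑ k ∈ Finset.range (i + 1), γ k) atTop (𝓝 (∑' k, γ k)) :=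
    hσ.cesaro
  have hT : ∀ N : ℕ, ∃ T : ℕ, ∀ t, T ≤ t → ∀ k ∈ Finset.range N,
      |A t k * B t (k + j) - γ k| ≤ 1 / ((N : ℝ) + 1) ^ 2 := by
    intro N
    have h1 : ∀ᶠ t in atTop, ∀ k ∈ Finset.range N,
        |A t k * B t (k + j) - γ k| ≤ 1 / ((N : ℝ) + 1) ^ 2 := by
      rw [Filter.eventually_all_finset]
      intro k _
      have h2 : Tendsto (fun t => A t k * B t (k + j)) atTop (𝓝 (γ k)) :=
        (hAl k).mul (hBl (k + j))
      have h3 := (Metric.tendsto_nhds.1 h2) (1 / ((N : ℝ) + 1) ^ 2) (by positivity)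
      filter_upwards [h3] with t ht
      rw [Real.dist_eq] at ht
      exact ht.le
    obtain ⟨T, hT⟩ := eventually_atTop.1 h1
    exact ⟨T, hT⟩
  choose T hT using hT
  refine ⟨T, ?_⟩
  have hdiff : ∀ N i : ℕ, i < N →
      |∑ t ∈ Finset.Ico (T N) (T N + i + 1), A t (T N + i - t) * B t (T N + i - t + j) -
        ∑ k ∈ Finset.range (i + 1), γ k| ≤ 1 / ((N : ℝ) + 1) := by
    intro N i hi
    rw [Finset.sum_Ico_eq_sum_range, ← Finset.sum_range_reflect γ (i + 1),
      show T N + i + 1 - T N = i + 1 by omega, ← Finset.sum_sub_distrib]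
    refine (Finset.abs_sum_le_sum_abs _ _).trans ?_
    have h4 : ∀ l ∈ Finset.range (i + 1),
        |A (T N + l) (T N + i - (T N + l)) * B (T N + l) (T N + i - (T N + l) + j) -
          γ (i + 1 - 1 - l)| ≤ 1 / ((N : ℝ) + 1) ^ 2 := by
      intro l hl
      rw [Finset.mem_range] at hl
      have e : T N + i - (T N + l) = i - l := by omega
      have e' : i + 1 - 1 - l = i - l := by omega
      rw [e, e']
      exact hT N (T N + l) (by omega) (i - l) (Finset.mem_range.2 (by omega))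
    refine (Finset.sum_le_sum h4).trans ?_
    rw [Finset.sum_const, Finset.card_range, nsmul_eq_mul]
    have hN : (0 : ℝ) < (N : ℝ) + 1 := by positivity
    have hi' : ((i + 1 : ℕ) : ℝ) ≤ (N : ℝ) + 1 := by
      have h5 : i + 1 ≤ N := hi
      have h6 : ((i + 1 : ℕ) : ℝ) ≤ (N : ℝ) := by exact_mod_cast h5
      linarith
    rw [mul_one_div, div_le_div_iff₀ (by positivity) hN]
    nlinarith
  have hd : Tendsto (fun N : ℕ => (∑ i ∈ Finset.range N, ∑ t ∈ Finset.Ico (T N) (T N + i + 1),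
      A t (T N + i - t) * B t (T N + i - t + j)) / (N : ℝ) -
      (N : ℝ)⁻¹ * ∑ i ∈ Finset.range N, ∑ k ∈ Finset.range (i + 1), γ k) atTop (𝓝 0) := by
    refine squeeze_zero_norm (a := fun N : ℕ => 1 / ((N : ℝ) + 1)) (fun N => ?_)
      tendsto_one_div_add_atTop_nhds_zero_nat
    rw [Real.norm_eq_abs, div_eq_inv_mul, ← mul_sub, ← Finset.sum_sub_distrib, abs_mul,
      abs_of_nonneg (inv_nonneg.2 (Nat.cast_nonneg N : (0 : ℝ) ≤ N))]
    have h7 : |∑ i ∈ Finset.range N, ((∑ t ∈ Finset.Ico (T N) (T N + i + 1),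
        A t (T N + i - t) * B t (T N + i - t + j)) - ∑ k ∈ Finset.range (i + 1), γ k)| ≤
        (N : ℝ) * (1 / ((N : ℝ) + 1)) := by
      refine (Finset.abs_sum_le_sum_abs _ _).trans ?_
      refine (Finset.sum_le_sum fun i hi => hdiff N i (Finset.mem_range.1 hi)).trans ?_
      rw [Finset.sum_const, Finset.card_range, nsmul_eq_mul]
    refine (mul_le_mul_of_nonneg_left h7 (inv_nonneg.2 (Nat.cast_nonneg N))).trans ?_
    rw [← mul_assoc]
    refine mul_le_of_le_one_left (by positivity) ?_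
    exact inv_mul_le_one
  have h8 := hd.add hces
  simpa using h8

end Pool.Agent.Q103.DJ_AVG
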