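import Pool.Agent.Q88.MF.Stm

/-!
# Job INC of project MF
-/

namespace Pool.Agent.Q103.MF

open Pool.Agent.Q88.MF

theorem inc (h : S_rat) (_h1 : S_kmo) : S_inc := by
  intro a s s' r ha hs hss
  have hs' : 0 < s' := hs.trans hss
  have h1 := h a s s ha hs le_rfl
  have h2 := h a s s' ha hs hss.le
  have e1 : ∀ t : ℝ, 0 < t → hh a t r = t * P a t r := by
    intro t ht
    unfold hh H P
    rw [if_pos ht.le, abs_of_pos ht, mul_max_of_nonneg _ _ ht.le, mul_div_cancel₀ _ ht.ne']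
  have hP : 0 < P a s r := by
    unfold P
    rw [abs_of_pos hs]
    exact lt_max_of_lt_left (div_pos h1.1 hs)
  have hPP : P a s r ≤ P a s' r := by
    unfold P
    rw [abs_of_pos hs, abs_of_pos hs']
    refine max_le_max ?_ le_rfl
    rw [div_le_div_iff₀ hs hs']
    exact h2.2
  refine ⟨hP, ?_, ?_, ?_⟩
  · rw [e1 s hs, e1 s' hs']
    nlinarith [mul_le_mul_of_nonneg_left hPP hs'.le]
  · unfold hh
    rw [if_neg (by linarith : ¬ (0 ≤ -s)), if_pos hs.le, neg_neg]
  · unfold P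
    rw [abs_neg]

end Pool.Agent.Q103.MF
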