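import Pool.Agent.Q88.MT.Stm

/-!
# Project MT, job BAS: basic facts on the norm
-/

set_option autoImplicit false

namespace Pool.Agent.Q103.MT

open Pool.Agent.Q88.MT

lemma mem_iff {n : ℕ} (u : X n → ℂ) : Memℓp (E := fun _ : X n => ℂ) u 2 ↔ Sq u := by
  rw [memℓp_gen_iff (by norm_num)]
  unfold Sq
  simp only [ENNReal.toReal_ofNat, Real.rpow_ofNat]

lemma norm_eq {n : ℕ} (u : X n → ℂ) (h : Memℓp (E := fun _ : X n => ℂ) u 2) :
    ‖(⟨u, h⟩ : lp (fun _ : X n => ℂ) 2)‖ = nn u := by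
  rw [lp.norm_eq_tsum_rpow (by norm_num)]
  unfold nn
  simp only [ENNReal.toReal_ofNat, Real.rpow_ofNat, Real.sqrt_eq_rpow]

/-- JOB BAS -/
theorem bas : S_bas := by
  intro n
  refine ⟨fun u v hu hv => ?_, fun c u hu => ?_, fun u hu h0 => ?_, fun u v hu h => ?_⟩
  · have hu' := (mem_iff u).2 hu
    have hv' := (mem_iff v).2 hv
    have huv : Memℓp (E := fun _ : X n => ℂ) (fun x => u x + v x) 2 := hu'.add hv'
    refine ⟨(mem_iff _).1 huv, ?_⟩
    rw [← norm_eq _ huv, ← norm_eq _ hu', ← norm_eq _ hv']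
    exact norm_add_le (⟨u, hu'⟩ : lp (fun _ : X n => ℂ) 2) ⟨v, hv'⟩
  · have hu' := (mem_iff u).2 hu
    have hcu : Memℓp (E := fun _ : X n => ℂ) (fun x => c * u x) 2 := hu'.const_smul c
    refine ⟨(mem_iff _).1 hcu, ?_⟩
    rw [← norm_eq _ hcu, ← norm_eq _ hu']
    exact norm_smul c (⟨u, hu'⟩ : lp (fun _ : X n => ℂ) 2)
  · have hu' := (mem_iff u).2 hu
    rw [← norm_eq _ hu', norm_eq_zero] at h0
    exact congrArg Subtype.val h0
  · have hle : ∀ x, ‖v x‖ ^ 2 ≤ ‖u x‖ ^ 2 := fun x =>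
      pow_le_pow_left₀ (norm_nonneg _) (h x) 2
    have hv : Sq v := Summable.of_nonneg_of_le (fun x => by positivity) hle hu
    exact ⟨hv, Real.sqrt_le_sqrt (Summable.tsum_le_tsum hle hv hu)⟩

end Pool.Agent.Q103.MT
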