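import Pool.Agent.Q2.PM.Stm

/-!
# Job A1 of project PM (Kegel, Wielandt)
-/

namespace Q103.PM_A1

open Subgroup Q2.PM
open Q2.TN (IsPNil IsSyl IsChief Nm)

variable {G : Type} [Group G]

lemma pm_symm {H X : Subgroup G} (h : Pm H X) : Pm X H := by
  intro x hx y hy
  obtain ⟨x', hx', h', hh', e⟩ := h y⁻¹ (H.inv_mem hy) x⁻¹ (X.inv_mem hx)
  refine ⟨h'⁻¹, H.inv_mem hh', x'⁻¹, X.inv_mem hx', ?_⟩
  have h2 := congrArg (fun z => z⁻¹) e
  simpa [mul_inv_rev] using h2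

/-- the product of two permuting subgroups -/
def prodSub (H X : Subgroup G) (h : Pm H X) : Subgroup G where
  carrier := {g | ∃ a ∈ H, ∃ b ∈ X, g = a * b}
  one_mem' := ⟨1, H.one_mem, 1, X.one_mem, by simp⟩
  mul_mem' := by
    rintro _ _ ⟨a, ha, b, hb, rfl⟩ ⟨c, hc, d, hd, rfl⟩
    obtain ⟨c', hc', b', hb', e⟩ := pm_symm h b hb c hc
    exact ⟨a * c', H.mul_mem ha hc', b' * d, X.mul_mem hb' hd, by
      rw [mul_assoc a b, ← mul_assoc b c d, e]; group⟩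
  inv_mem' := by
    rintro _ ⟨a, ha, b, hb, rfl⟩
    obtain ⟨a', ha', b', hb', e⟩ := pm_symm h b⁻¹ (X.inv_mem hb) a⁻¹ (H.inv_mem ha)
    exact ⟨a', ha', b', hb', by rw [mul_inv_rev, e]⟩

lemma mem_prodSub {H X : Subgroup G} {h : Pm H X} {g : G} :
    g ∈ prodSub H X h ↔ ∃ a ∈ H, ∃ b ∈ X, g = a * b := Iff.rfl

lemma pm_sup {H K X : Subgroup G} (h : Pm H X) (h' : Pm K X) : Pm (H ⊔ K) X := by
  intro g hg
  rw [Subgroup.sup_eq_closure] at hg ⊢
  have hsub : ∀ z ∈ (H : Set G) ∪ K, ∀ x ∈ X, ∃ x' ∈ X,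
      ∃ k' ∈ closure ((H : Set G) ∪ K), z * x = x' * k' := by
    rintro z (hz | hz) x hx
    · obtain ⟨x', hx', k', hk', e⟩ := h z hz x hx
      exact ⟨x', hx', k', subset_closure (Or.inl hk'), e⟩
    · obtain ⟨x', hx', k', hk', e⟩ := h' z hz x hx
      exact ⟨x', hx', k', subset_closure (Or.inr hk'), e⟩
  induction hg using closure_induction'' with
  | mem z hz => exact hsub z hz
  | inv_mem z hz =>
    refine hsub z⁻¹ ?_
    rcases hz with hz | hz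
    · exact Or.inl (H.inv_mem hz)
    · exact Or.inr (K.inv_mem hz)
  | one => exact fun x hx => ⟨x, hx, 1, one_mem _, by simp⟩
  | mul a b _ _ iha ihb =>
    intro x hx
    obtain ⟨x', hx', k', hk', e⟩ := ihb x hx
    obtain ⟨x'', hx'', k'', hk'', e'⟩ := iha x' hx'
    exact ⟨x'', hx'', k'' * k', mul_mem hk'' hk', by rw [mul_assoc, e, ← mul_assoc, e', mul_assoc]⟩

lemma mem_cj {B : Subgroup G} {g x : G} :
    x ∈ B.map (MulAut.conj g).toMonoidHom ↔ ∃ b ∈ B, x = g * b * g⁻¹ := by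
  rw [Subgroup.mem_map]
  constructor
  · rintro ⟨b, hb, rfl⟩
    exact ⟨b, hb, by simp [MulAut.conj_apply]⟩
  · rintro ⟨b, hb, rfl⟩
    exact ⟨b, hb, by simp [MulAut.conj_apply]⟩

lemma cj_cj (B : Subgroup G) (g h : G) :
    (B.map (MulAut.conj h).toMonoidHom).map (MulAut.conj g).toMonoidHom =
      B.map (MulAut.conj (g * h)).toMonoidHom := by
  ext x
  rw [mem_cj, mem_cj]
  constructor
  · rintro ⟨y, hy, rfl⟩
    obtain ⟨b, hb, rfl⟩ := mem_cj.1 hy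
    exact ⟨b, hb, by group⟩
  · rintro ⟨b, hb, rfl⟩
    exact ⟨h * b * h⁻¹, mem_cj.2 ⟨b, hb, rfl⟩, by group⟩

lemma pm_cj {H X : Subgroup G} (h : Pm H X) (g : G) :
    Pm (H.map (MulAut.conj g).toMonoidHom) (X.map (MulAut.conj g).toMonoidHom) := by
  intro y hy z hz
  obtain ⟨a, ha, rfl⟩ := mem_cj.1 hy
  obtain ⟨b, hb, rfl⟩ := mem_cj.1 hz
  obtain ⟨x', hx', h', hh', e⟩ := h a ha b hb
  exact ⟨g * x' * g⁻¹, mem_cj.2 ⟨x', hx', rfl⟩, g * h' * g⁻¹, mem_cj.2 ⟨h', hh', rfl⟩, by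
    have : g * a * g⁻¹ * (g * b * g⁻¹) = g * (a * b) * g⁻¹ := by group
    rw [this, e]; group⟩

/-- `G = C (g B g⁻¹)` implies `G = C B` -/
lemma full_of_cj {C B : Subgroup G} (g : G)
    (h : ∀ x : G, ∃ c ∈ C, ∃ b ∈ B.map (MulAut.conj g).toMonoidHom, x = c * b) :
    ∀ x : G, ∃ c ∈ C, ∃ b ∈ B, x = c * b := by
  intro x
  obtain ⟨c0, hc0, y0, hy0, e0⟩ := h g⁻¹
  obtain ⟨b0, hb0, rfl⟩ := mem_cj.1 hy0
  obtain ⟨c, hc, y, hy, e⟩ := h (x * g⁻¹)
  obtain ⟨b, hb, rfl⟩ := mem_cj.1 hy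
  refine ⟨c * c0⁻¹, C.mul_mem hc (C.inv_mem hc0), b0⁻¹ * b, B.mul_mem (B.inv_mem hb0) hb, ?_⟩
  have h1 : x = c * g * b := by
    have := congrArg (fun z => z * g) e
    simp only [inv_mul_cancel_right] at this
    rw [this]; group
  have h2 : c0 * g * b0 = 1 := by
    have := congrArg (fun z => z * g) e0
    simp only [inv_mul_cancel] at this
    rw [this]; group
  have h3 : g = c0⁻¹ * b0⁻¹ := by
    have := congrArg (fun z => c0⁻¹ * z * b0⁻¹) h2
    simp only [mul_one] at this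
    rw [← this]; group
  rw [h1]
  nth_rewrite 1 [h3]
  group

/-- and conversely -/
lemma full_cj {C B : Subgroup G} (g : G) (h : ∀ x : G, ∃ c ∈ C, ∃ b ∈ B, x = c * b) :
    ∀ x : G, ∃ c ∈ C, ∃ b ∈ B.map (MulAut.conj g).toMonoidHom, x = c * b := by
  apply full_of_cj (B := B.map (MulAut.conj g).toMonoidHom) g⁻¹
  rw [cj_cj]
  simpa using h

theorem a1 : S_A1 := by
  intro G _ _ A B hsimple hA hB hper
  by_contra hcon
  have hne : ¬ ∀ x : G, ∃ a ∈ A, ∃ b ∈ B, x = a * b := hcon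
  obtain ⟨C, hC⟩ := (Set.toFinite {C : Subgroup G | A ≤ C ∧
    (∀ g : G, Pm C (B.map (MulAut.conj g).toMonoidHom)) ∧
    ¬ ∀ x : G, ∃ c ∈ C, ∃ b ∈ B, x = c * b}).exists_maximal ⟨A, le_rfl, hper, hne⟩
  obtain ⟨⟨hAC, hCp, hCne⟩, hmax⟩ := hC
  -- conjugates of `B` normalize `C`
  have key : ∀ g : G, ∀ β ∈ B.map (MulAut.conj g).toMonoidHom,
      C.map (MulAut.conj β).toMonoidHom ≤ C := by
    intro g β hβ
    have hC' : ∀ h : G, Pm (C.map (MulAut.conj β).toMonoidHom) (B.map (MulAut.conj h).toMonoidHom) := by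
      intro h
      have h1 := pm_cj (hCp (β⁻¹ * h)) β
      rwa [cj_cj, mul_inv_cancel_left] at h1
    have hsub : C ⊔ C.map (MulAut.conj β).toMonoidHom ≤ prodSub C _ (hCp g) := by
      have hCle : ∀ c ∈ C, c ∈ prodSub C _ (hCp g) := fun c hc => ⟨c, hc, 1, one_mem _, by simp⟩
      have hβm : β ∈ prodSub C _ (hCp g) := ⟨1, one_mem _, β, hβ, by simp⟩
      refine sup_le hCle ?_
      intro y hy
      obtain ⟨c, hc, rfl⟩ := mem_cj.1 hy
      exact mul_mem (mul_mem hβm (hCle c hc)) (inv_mem hβm)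
    have hmem : C ⊔ C.map (MulAut.conj β).toMonoidHom ∈ {C : Subgroup G | A ≤ C ∧
        (∀ g : G, Pm C (B.map (MulAut.conj g).toMonoidHom)) ∧
        ¬ ∀ x : G, ∃ c ∈ C, ∃ b ∈ B, x = c * b} := by
      refine ⟨hAC.trans le_sup_left, fun h => pm_sup (hCp h) (hC' h), fun hfull => hCne ?_⟩
      apply full_of_cj g
      intro x
      obtain ⟨c, hc, b, hb, rfl⟩ := full_cj g hfull x
      exact mul_mem (hsub hc) (show b ∈ prodSub C _ (hCp g) from ⟨1, one_mem _, b, hb, by simp⟩)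
    exact le_sup_right.trans (hmax hmem le_sup_left)
  -- so `C` is normal
  have hN : Subgroup.normalClosure (B : Set G) ≤ Subgroup.normalizer (C : Set G) := by
    rw [Subgroup.normalClosure, Subgroup.closure_le]
    intro y hy
    rw [Group.mem_conjugatesOfSet_iff] at hy
    obtain ⟨b, hb, hc⟩ := hy
    obtain ⟨g, hg⟩ := isConj_iff.1 hc
    have hy2 : y ∈ B.map (MulAut.conj g).toMonoidHom := mem_cj.2 ⟨b, hb, hg.symm⟩
    rw [SetLike.mem_coe, Subgroup.mem_normalizer_iff]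
    intro c
    constructor
    · intro hc'
      exact key g y hy2 (mem_cj.2 ⟨c, hc', rfl⟩)
    · intro hc'
      have h1 := key g y⁻¹ (inv_mem hy2) (mem_cj.2 ⟨_, hc', rfl⟩)
      have h2 : y⁻¹ * (y * c * y⁻¹) * y⁻¹⁻¹ = c := by group
      rwa [h2] at h1
  have hnc : Subgroup.normalClosure (B : Set G) = ⊤ := by
    rcases hsimple _ (Subgroup.normalClosure_normal) with h | h
    · exact absurd (le_bot_iff.1 (Subgroup.le_normalClosure.trans h.le)) hB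
    · exact h
  rw [hnc, top_le_iff, Subgroup.normalizer_eq_top_iff] at hN
  rcases hsimple C hN with h | h
  · exact hA (le_bot_iff.1 (hAC.trans h.le))
  · exact hCne fun x => ⟨x, h ▸ Subgroup.mem_top x, 1, one_mem _, by simp⟩

end Q103.PM_A1
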