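import Mathlib
import Pool.Agent.Q16.SQ.Stm2
set_option autoImplicit false
noncomputable section
open scoped BigOperators
open Pool.Agent.Helper549.Tri

namespace Q16.SQ

theorem t_SH2 : S_SH2 := by
  intro N ℓ θ S A κ β hd hκ
  have hA0 : A 0 = 2 * θ 0 := by
    have := hd.angles 0
    rw [hκ, Fin.sum_univ_three] at this
    simpa [K2] using this
  have hA1 : A 1 = 2 * θ 1 := by
    have := hd.angles 1
    rw [hκ, Fin.sum_univ_three] at this
    simpa [K2] using this
  have hA2 : A 2 = θ 0 := by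
    have := hd.angles 2
    rw [hκ, Fin.sum_univ_three] at this
    simpa [K2] using this
  have hts := hd.tsum
  have hAs := hd.Asum
  have ht0 := hd.tpos 0
  have ht1 := hd.tpos 1
  have ht2 := hd.tpos 2
  have hb := hd.lpos 1
  have hc := hd.lpos 2
  have hS2 := hd.Spos 2
  obtain ⟨s, hs⟩ : ∃ s : ℝ, s = θ 0 / 2 := ⟨_, rfl⟩
  have e0 : θ 0 = 2 * s := by linarith
  have e1 : θ 1 = Real.pi / 2 - 3 * s := by linarith
  have e2 : θ 2 = Real.pi / 2 + s := by linarith
  have hu : 0 < Real.sin s := Real.sin_pos_of_pos_of_lt_pi (by linarith) (by linarith)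
  have hv : 0 < Real.cos s := Real.cos_pos_of_mem_Ioo ⟨by linarith, by linarith⟩
  have huv : Real.sin s ^ 2 + Real.cos s ^ 2 = 1 := Real.sin_sq_add_cos_sq s
  have s0 : Real.sin (θ 0) = 2 * Real.sin s * Real.cos s := by rw [e0, Real.sin_two_mul]
  have s1 : Real.sin (θ 1) = Real.cos s * (1 - 4 * Real.sin s ^ 2) := by
    rw [e1, Real.sin_pi_div_two_sub, Real.cos_three_mul]
    linear_combination 4 * Real.cos s * huv
  have s2 : Real.sin (θ 2) = Real.cos s := by
    rw [e2, add_comm, Real.sin_add_pi_div_two]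
  have c0 : Real.cos (θ 0) = 1 - 2 * Real.sin s ^ 2 := by
    rw [e0, Real.cos_two_mul]; linear_combination 2 * huv
  have sA0 : Real.sin (A 0) = 2 * Real.sin (θ 0) * (1 - 2 * Real.sin s ^ 2) := by
    rw [hA0, Real.sin_two_mul, c0]
  have sA1 : Real.sin (A 1) = Real.sin (θ 0) * ((1 - 4 * Real.sin s ^ 2) * (3 - 4 * Real.sin s ^ 2)) := by
    have : A 1 = Real.pi - 3 * (θ 0) := by rw [hA1, e1, e0]; ring
    rw [this, Real.sin_pi_sub, Real.sin_three_mul, s0]
    linear_combination (-32 * Real.sin s ^ 3 * Real.cos s) * huv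
  have hs0 : 0 < Real.sin (θ 0) := by rw [s0]; positivity
  have a1 : ℓ 0 = 2 * Real.sin s * ℓ 2 := by
    have := hd.sinet 0 2
    rw [s0, s2] at this
    apply mul_right_cancel₀ hv.ne'
    linear_combination this
  have b1 : ℓ 1 = (1 - 4 * Real.sin s ^ 2) * ℓ 2 := by
    have := hd.sinet 1 2
    rw [s1, s2] at this
    apply mul_right_cancel₀ hv.ne'
    linear_combination this
  have S0 : S 0 = 2 * (1 - 2 * Real.sin s ^ 2) * S 2 := by
    have := hd.sineT 0 2
    rw [sA0, hA2] at this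
    apply mul_right_cancel₀ hs0.ne'
    linear_combination this
  have S1 : S 1 = (1 - 4 * Real.sin s ^ 2) * (3 - 4 * Real.sin s ^ 2) * S 2 := by
    have := hd.sineT 1 2
    rw [sA1, hA2] at this
    apply mul_right_cancel₀ hs0.ne'
    linear_combination this
  have hN : (N : ℝ) * ℓ 1 * ℓ 2 = S 0 * S 1 := by
    have := hd.area
    rw [s2, hA2, s0, a1] at this
    apply mul_right_cancel₀ (mul_pos (mul_pos two_pos hu) hv).ne'
    linear_combination this
  refine ⟨?_, S 2 / ℓ 2 ^ 2, by positivity, ?_, ?_, ?_, ?_⟩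
  · rw [a1, b1]; ring
  · rw [S0]; field_simp; rw [b1]; ring
  · rw [S1]; field_simp; rw [b1]; ring
  · field_simp
  · have h1 : S 0 = S 2 / ℓ 2 ^ 2 * (ℓ 2 * (ℓ 1 + ℓ 2)) := by
      rw [S0]; field_simp; rw [b1]; ring
    have h2 : S 1 = S 2 / ℓ 2 ^ 2 * (ℓ 1 * (ℓ 1 + 2 * ℓ 2)) := by
      rw [S1]; field_simp; rw [b1]; ring
    rw [h1, h2] at hN
    apply mul_right_cancel₀ (mul_pos hb hc).ne'
    linear_combination hN

end Q16.SQ
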