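import Mathlib
import Pool.Agent.Helper549.Tri.Basic
import Pool.Agent.Q16.SQ.Stm5
set_option autoImplicit false
noncomputable section
open scoped BigOperators
open Pool.Agent.Helper549.Tri

namespace Pool.Agent.Q103.SQ
open Q16.SQ Pool.Agent.Helper549.Tri.Basic

open Classical in
/-- crossing value in terms of the signs -/
def fx (Yp Yq L : ℝ) : ℝ :=
  if Yp < 0 ∧ 0 < Yq ∧ 0 < L then 1 else if Yq < 0 ∧ 0 < Yp ∧ L < 0 then -1 else 0

theorem cx_eq (p q w : ℂ) (hp : p.im ≠ w.im) (hq : q.im ≠ w.im) (hL : cr (q - p) (w - p) ≠ 0) :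
    Cx p (q - p) q w = fx (p.im - w.im) (q.im - w.im) (cr (q - p) (w - p)) := by
  have key : (q.im - p.im) ≠ 0 → ((w.re < p.re + (w.im - p.im) * (q.re - p.re) / (q.im - p.im)) ↔
      0 < cr (q - p) (w - p) / (q.im - p.im)) := by
    intro h
    have e : cr (q - p) (w - p) / (q.im - p.im) =
        p.re + (w.im - p.im) * (q.re - p.re) / (q.im - p.im) - w.re := by
      simp only [cr, Complex.sub_re, Complex.sub_im]
      field_simp
      ring
    rw [e, sub_pos]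
  unfold Cx fx
  simp only [Complex.sub_re, Complex.sub_im]
  rcases lt_or_gt_of_ne hp with h1 | h1 <;> rcases lt_or_gt_of_ne hq with h2 | h2
  · -- both below
    have a1 : ¬ w.im < q.im := by linarith
    have a2 : ¬ w.im < p.im := by linarith
    have a3 : ¬ 0 < q.im - w.im := by linarith
    have a4 : ¬ 0 < p.im - w.im := by linarith
    simp [a1, a2, a3, a4]
  · have a1 : w.im < q.im := h2
    have a2 : ¬ w.im < p.im := by linarith
    have a3 : 0 < q.im - w.im := by linarith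
    have a4 : ¬ 0 < p.im - w.im := by linarith
    have a5 : p.im - w.im < 0 := by linarith
    have d : 0 < q.im - p.im := by linarith
    have k2 := key d.ne'
    rw [div_pos_iff_of_pos_right d] at k2
    rw [if_pos a1, if_neg a2]
    by_cases hh : 0 < cr (q - p) (w - p)
    · rw [if_pos ⟨d.ne', k2.2 hh⟩, if_pos ⟨a5, a3, hh⟩]; norm_num
    · rw [if_neg (fun c => hh (k2.1 c.2)), if_neg (fun c => hh c.2.2), if_neg (fun c => a4 c.2.1)]
  · have a1 : ¬ w.im < q.im := by linarith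
    have a2 : w.im < p.im := h1
    have a3 : ¬ 0 < q.im - w.im := by linarith
    have a4 : 0 < p.im - w.im := by linarith
    have a5 : q.im - w.im < 0 := by linarith
    have d : q.im - p.im < 0 := by linarith
    have k2 := key d.ne
    rw [if_neg a1, if_pos a2]
    have k3 : 0 < cr (q - p) (w - p) / (q.im - p.im) ↔ cr (q - p) (w - p) < 0 := by
      constructor
      · intro h
        by_contra hc
        have : cr (q - p) (w - p) / (q.im - p.im) ≤ 0 :=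
          div_nonpos_of_nonneg_of_nonpos (not_lt.1 hc) d.le
        linarith
      · intro h; exact div_pos_of_neg_of_neg h d
    rw [k3] at k2
    by_cases hh : cr (q - p) (w - p) < 0
    · rw [if_pos ⟨d.ne, k2.2 hh⟩, if_neg (fun c => a3 c.2.1), if_pos ⟨a5, a4, hh⟩]; norm_num
    · rw [if_neg (fun c => hh (k2.1 c.2)), if_neg (fun c => a3 c.2.1), if_neg (fun c => hh c.2.2)]
  · have a1 : w.im < q.im := h2
    have a2 : w.im < p.im := h1
    have a3 : ¬ q.im - w.im < 0 := by linarith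
    have a4 : ¬ p.im - w.im < 0 := by linarith
    simp [a1, a2, a3, a4]

theorem core (Y0 Y1 Y2 L0 L1 L2 : ℝ) (h0 : Y0 ≠ 0) (h1 : Y1 ≠ 0) (h2 : Y2 ≠ 0)
    (l0 : L0 ≠ 0) (l1 : L1 ≠ 0) (l2 : L2 ≠ 0)
    (h : L0 * Y0 + L1 * Y1 + L2 * Y2 = 0) (hs : 0 < L0 + L1 + L2) :
    fx Y1 Y2 L0 + fx Y2 Y0 L1 + fx Y0 Y1 L2 = fx (-1) 1 (min L0 (min L1 L2)) := by
  unfold fx
  rcases lt_or_gt_of_ne h0 with a0 | a0 <;> rcases lt_or_gt_of_ne h1 with a1 | a1 <;>
  rcases lt_or_gt_of_ne h2 with a2 | a2 <;> rcases lt_or_gt_of_ne l0 with b0 | b0 <;>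
  rcases lt_or_gt_of_ne l1 with b1 | b1 <;> rcases lt_or_gt_of_ne l2 with b2 | b2 <;>
  first
  | (exfalso; linarith)
  | (exfalso; nlinarith [mul_pos a0 b0, mul_pos a1 b1, mul_pos a2 b2])
  | (exfalso; nlinarith [mul_pos_of_neg_of_neg a0 b0, mul_pos_of_neg_of_neg a1 b1, mul_pos_of_neg_of_neg a2 b2])
  | (exfalso; nlinarith [mul_pos_of_neg_of_neg a0 b0, mul_pos_of_neg_of_neg a1 b1, mul_pos a2 b2])
  | (exfalso; nlinarith [mul_pos_of_neg_of_neg a0 b0, mul_pos a1 b1, mul_pos_of_neg_of_neg a2 b2])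
  | (exfalso; nlinarith [mul_pos_of_neg_of_neg a0 b0, mul_pos a1 b1, mul_pos a2 b2])
  | (exfalso; nlinarith [mul_pos a0 b0, mul_pos_of_neg_of_neg a1 b1, mul_pos_of_neg_of_neg a2 b2])
  | (exfalso; nlinarith [mul_pos a0 b0, mul_pos_of_neg_of_neg a1 b1, mul_pos a2 b2])
  | (exfalso; nlinarith [mul_pos a0 b0, mul_pos a1 b1, mul_pos_of_neg_of_neg a2 b2])
  | (exfalso; nlinarith [mul_neg_of_neg_of_pos a0 b0, mul_neg_of_neg_of_pos a1 b1, mul_neg_of_neg_of_pos a2 b2])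
  | (exfalso; nlinarith [mul_neg_of_neg_of_pos a0 b0, mul_neg_of_neg_of_pos a1 b1, mul_neg_of_pos_of_neg a2 b2])
  | (exfalso; nlinarith [mul_neg_of_neg_of_pos a0 b0, mul_neg_of_pos_of_neg a1 b1, mul_neg_of_neg_of_pos a2 b2])
  | (exfalso; nlinarith [mul_neg_of_neg_of_pos a0 b0, mul_neg_of_pos_of_neg a1 b1, mul_neg_of_pos_of_neg a2 b2])
  | (exfalso; nlinarith [mul_neg_of_pos_of_neg a0 b0, mul_neg_of_neg_of_pos a1 b1, mul_neg_of_neg_of_pos a2 b2])
  | (exfalso; nlinarith [mul_neg_of_pos_of_neg a0 b0, mul_neg_of_neg_of_pos a1 b1, mul_neg_of_pos_of_neg a2 b2])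
  | (exfalso; nlinarith [mul_neg_of_pos_of_neg a0 b0, mul_neg_of_pos_of_neg a1 b1, mul_neg_of_neg_of_pos a2 b2])
  | (simp [a0, a1, a2, b0, b1, b2, a0.le, a1.le, a2.le, b0.le, b1.le, b2.le, not_lt.2 a0.le, not_lt.2 a1.le, not_lt.2 a2.le, not_lt.2 b0.le, not_lt.2 b1.le, not_lt.2 b2.le])

theorem t_WIND : S_WIND := by
  intro v w hv hw
  have L0 : lam v 0 w = cr (v 2 - v 1) (w - v 1) := rfl
  have L1 : lam v 1 w = cr (v 0 - v 2) (w - v 2) := rfl
  have L2 : lam v 2 w = cr (v 1 - v 0) (w - v 0) := rfl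
  have g0 := hw 0
  have g1 := hw 1
  have g2 := hw 2
  have hs := lam_sum v w
  have hrel : lam v 0 w * ((v 0).im - w.im) + lam v 1 w * ((v 1).im - w.im) +
      lam v 2 w * ((v 2).im - w.im) = 0 := by
    rw [L0, L1, L2]
    simp only [cr, Complex.sub_re, Complex.sub_im]
    ring
  have hc := core ((v 0).im - w.im) ((v 1).im - w.im) ((v 2).im - w.im) (lam v 0 w) (lam v 1 w)
    (lam v 2 w) (sub_ne_zero.2 g0.1) (sub_ne_zero.2 g1.1) (sub_ne_zero.2 g2.1) g0.2 g1.2 g2.2 hrel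
    (by rw [hs]; exact hv)
  have e0 : Cx (v 1) (v 2 - v 1) (v 2) w = fx ((v 1).im - w.im) ((v 2).im - w.im) (lam v 0 w) :=
    cx_eq _ _ _ g1.1 g2.1 (by rw [← L0]; exact g0.2)
  have e1 : Cx (v 2) (v 0 - v 2) (v 0) w = fx ((v 2).im - w.im) ((v 0).im - w.im) (lam v 1 w) :=
    cx_eq _ _ _ g2.1 g0.1 (by rw [← L1]; exact g1.2)
  have e2 : Cx (v 0) (v 1 - v 0) (v 1) w = fx ((v 0).im - w.im) ((v 1).im - w.im) (lam v 2 w) :=
    cx_eq _ _ _ g0.1 g1.1 (by rw [← L2]; exact g2.2)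
  rw [Fin.sum_univ_three]
  change Cx (v 1) (v 2 - v 1) (v 2) w + Cx (v 2) (v 0 - v 2) (v 0) w +
    Cx (v 0) (v 1 - v 0) (v 1) w = _
  rw [e0, e1, e2, hc]
  have hi := mem_int v hv w
  have hm : (0 < min (lam v 0 w) (min (lam v 1 w) (lam v 2 w))) ↔ w ∈ interior (hull v) := by
    rw [hi, lt_min_iff, lt_min_iff]
    constructor
    · rintro ⟨a, b, c⟩ k
      rcases fin3_cases k with rfl | rfl | rfl
      · exact a
      · exact b
      · exact c
    · intro h; exact ⟨h 0, h 1, h 2⟩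
  unfold fx
  by_cases hh : w ∈ interior (hull v)
  · rw [if_pos hh, if_pos ⟨by norm_num, by norm_num, hm.2 hh⟩]
  · rw [if_neg hh, if_neg (fun c => hh (hm.1 c.2.2)), if_neg (fun c => absurd c.1 (by norm_num))]

end Pool.Agent.Q103.SQ
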